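import Pool.Agent.N352.PF.Cnt
import Pool.Agent.N891.PQ.StrA

/-!
# Project PF (helper783, helper352), part STR (helper331): counting lemmas over number fields

Port of `Pool/Agent/N891/PQ/StrA.lean` (helper891).
-/

set_option autoImplicit false
set_option linter.all false

open Polynomial NumberField IsDedekindDomain
open scoped Classical

namespace Pool.Agent.N331.PF

open Pool.Agent.N352.PF

/-- a polynomial function is polynomially bounded -/
theorem mv_boundC {σ : Type} (P : MvPolynomial σ ℤ) : ∃ C m : ℕ, ∀ (T : ℝ), 1 ≤ T →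
    ∀ x : σ → ℂ, (∀ j, ‖x j‖ ≤ T) → ‖MvPolynomial.eval₂ (Int.castRingHom ℂ) x P‖ ≤ C * T ^ m := by
  induction P using MvPolynomial.induction_on with
  | C c =>
    refine ⟨c.natAbs, 0, fun T hT x hx => ?_⟩
    rw [MvPolynomial.eval₂_C, pow_zero, mul_one, eq_intCast, Complex.norm_intCast,
      Nat.cast_natAbs, Int.cast_abs]
  | add p q hp hq =>
    obtain ⟨C1, m1, h1⟩ := hp
    obtain ⟨C2, m2, h2⟩ := hq
    refine ⟨C1 + C2, max m1 m2, fun T hT x hx => ?_⟩
    have e1 := h1 T hT x hx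
    have e2 := h2 T hT x hx
    have e3 : T ^ m1 ≤ T ^ (max m1 m2) := pow_le_pow_right₀ hT (le_max_left _ _)
    have e4 : T ^ m2 ≤ T ^ (max m1 m2) := pow_le_pow_right₀ hT (le_max_right _ _)
    rw [MvPolynomial.eval₂_add]
    refine (norm_add_le _ _).trans ?_
    push_cast
    have e5 := mul_le_mul_of_nonneg_left e3 (Nat.cast_nonneg (α := ℝ) C1)
    have e6 := mul_le_mul_of_nonneg_left e4 (Nat.cast_nonneg (α := ℝ) C2)
    linarith [add_mul (C1 : ℝ) C2 (T ^ (max m1 m2))]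
  | mul_X p i hp =>
    obtain ⟨C1, m1, h1⟩ := hp
    refine ⟨C1, m1 + 1, fun T hT x hx => ?_⟩
    rw [MvPolynomial.eval₂_mul, MvPolynomial.eval₂_X, norm_mul, pow_succ, ← mul_assoc]
    have : 0 ≤ T := by linarith
    exact mul_le_mul (h1 T hT x hx) (hx i) (norm_nonneg _) (by positivity)

variable {F : Type} [Field F] [NumberField F]

/-- the norm of an integer with bounded conjugates -/
theorem norm_bound (D : 𝓞 F) (K : ℝ) (h : ∀ σ : F →+* ℂ, ‖σ D‖ ≤ K) :
    ((Ideal.absNorm (Ideal.span {D}) : ℕ) : ℝ) ≤ K ^ dg F := by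
  rw [Ideal.absNorm_span_singleton, Nat.cast_natAbs, Int.cast_abs]
  have h1 : ((Algebra.norm ℤ D : ℤ) : ℂ) = ∏ σ : F →ₐ[ℚ] ℂ, σ (D : F) := by
    rw [← Algebra.norm_eq_prod_embeddings ℚ ℂ (D : F), ← Algebra.coe_norm_int]
    simp
  have h2 : |((Algebra.norm ℤ D : ℤ) : ℝ)| = ∏ σ : F →ₐ[ℚ] ℂ, ‖σ (D : F)‖ := by
    rw [← norm_prod, ← h1, Complex.norm_intCast]
  rw [h2]
  calc ∏ σ : F →ₐ[ℚ] ℂ, ‖σ (D : F)‖ ≤ ∏ _σ : F →ₐ[ℚ] ℂ, K :=
        Finset.prod_le_prod (fun _ _ => norm_nonneg _) fun σ _ => h σ.toRingHom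
    _ = K ^ dg F := by
        rw [Finset.prod_const, Finset.card_univ, AlgHom.card]

/-- the number of large prime ideals containing an integer -/
theorem prime_countF (B C m : ℕ) (D : 𝓞 F) (hD : D ≠ 0) (hB : C ^ (2 * dg F) < B)
    (hb : ∀ σ : F →+* ℂ, ‖σ D‖ ≤ (C : ℝ) * (B : ℝ) ^ m) (s : Finset (HeightOneSpectrum (𝓞 F)))
    (hs : ∀ v ∈ s, B ≤ nv v ^ 2 ∧ D ∈ v.asIdeal) : s.card ≤ 2 * m * dg F := by
  have hB0 : 0 < B := by omega
  have h1 : (∏ v ∈ s, v.asIdeal) ∣ Ideal.span {D} := by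
    refine Finset.prod_dvd_of_isRelPrime ?_ ?_
    · intro v hv w hw hvw
      refine (IsCoprime.isRelPrime ?_)
      rw [Ideal.isCoprime_iff_sup_eq]
      have hvm := v.isMaximal
      have hwm := w.isMaximal
      refine Ideal.IsMaximal.coprime_of_ne hvm hwm ?_
      intro h
      exact hvw (HeightOneSpectrum.ext h)
    · intro v hv
      rw [Ideal.dvd_span_singleton]
      exact (hs v hv).2
  have h2 : (∏ v ∈ s, nv v) ≤ Ideal.absNorm (Ideal.span {D}) := by
    have h3 : (∏ v ∈ s, nv v) ∣ Ideal.absNorm (Ideal.span {D}) := by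
      have := map_dvd Ideal.absNorm h1
      rw [map_prod] at this
      exact this
    refine Nat.le_of_dvd (Nat.pos_of_ne_zero ?_) h3
    rw [Ne, Ideal.absNorm_eq_zero_iff, Ideal.span_singleton_eq_bot]
    exact hD
  have h3 : Ideal.absNorm (Ideal.span {D}) ≤ (C * B ^ m) ^ dg F := by
    have := norm_bound D _ hb
    exact_mod_cast this
  have h4 : B ^ s.card ≤ (∏ v ∈ s, nv v) ^ 2 := by
    rw [← Finset.prod_pow, ← Finset.prod_const]
    exact Finset.prod_le_prod' fun v hv => (hs v hv).1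
  have h5 : B ^ s.card ≤ ((C * B ^ m) ^ dg F) ^ 2 := h4.trans (Nat.pow_le_pow_left (h2.trans h3) 2)
  have h6 : ((C * B ^ m) ^ dg F) ^ 2 < B ^ (2 * m * dg F + 1) := by
    have e1 : ((C * B ^ m) ^ dg F) ^ 2 = C ^ (2 * dg F) * B ^ (2 * m * dg F) := by
      rw [← pow_mul, mul_pow, ← pow_mul]
      congr 1
      · congr 1; ring
      · congr 1; ring
    rw [e1, pow_succ, mul_comm (B ^ (2 * m * dg F))]
    exact Nat.mul_lt_mul_of_pos_right hB (by positivity)
  by_contra hcon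
  push Not at hcon
  have h7 : B ^ (2 * m * dg F + 1) ≤ B ^ s.card := Nat.pow_le_pow_right hB0 hcon
  omega

/-- the number of roots modulo `v` in a finite set with few elements in every class -/
theorem root_countF (S : Finset (𝓞 F)) (v : HeightOneSpectrum (𝓞 F)) (n K : ℕ)
    (hK : ∀ A : 𝓞 F, (S.filter fun x => x - A ∈ v.asIdeal).card ≤ K)
    (f : (𝓞 F)[X]) (hf : f.natDegree ≤ n) (hl : f.coeff n ∉ v.asIdeal) :
    (S.filter fun y => f.eval y ∈ v.asIdeal).card ≤ n * K := by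
  haveI hvm := v.isMaximal
  haveI hvp := v.isPrime
  letI : Field (𝓞 F ⧸ v.asIdeal) := Ideal.Quotient.field v.asIdeal
  obtain ⟨G, hG⟩ : ∃ G : (𝓞 F ⧸ v.asIdeal)[X], G = f.map (Ideal.Quotient.mk v.asIdeal) := ⟨_, rfl⟩
  have hGn : G.coeff n ≠ 0 := by
    rw [hG, coeff_map]
    intro h
    exact hl (Ideal.Quotient.eq_zero_iff_mem.1 h)
  have hG0 : G ≠ 0 := by
    intro h
    rw [h, coeff_zero] at hGn
    exact hGn rfl
  have hGd : G.natDegree ≤ n := by
    rw [hG]
    exact natDegree_map_le.trans hf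
  have hsub : (S.filter fun y => f.eval y ∈ v.asIdeal) ⊆
      G.roots.toFinset.biUnion fun r =>
        S.filter fun y => y - (Quotient.out r : 𝓞 F) ∈ v.asIdeal := by
    intro y hy
    rw [Finset.mem_filter] at hy
    rw [Finset.mem_biUnion]
    refine ⟨Ideal.Quotient.mk v.asIdeal y, ?_, ?_⟩
    · rw [Multiset.mem_toFinset, mem_roots hG0, IsRoot.def, hG, eval_map, eval₂_hom]
      exact Ideal.Quotient.eq_zero_iff_mem.2 hy.2
    · rw [Finset.mem_filter]
      refine ⟨hy.1, ?_⟩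
      rw [← Ideal.Quotient.eq]
      exact (Ideal.Quotient.mk_out _).symm
  refine (Finset.card_le_card hsub).trans (Finset.card_biUnion_le.trans ?_)
  refine (Finset.sum_le_sum fun r _ => hK _).trans ?_
  rw [Finset.sum_const, smul_eq_mul]
  refine Nat.mul_le_mul_right _ ?_
  exact (Multiset.toFinset_card_le _).trans ((card_roots' G).trans hGd)

end Pool.Agent.N331.PF
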